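import Mathlib

set_option autoImplicit false

/-!
# MP_a57927_nt: iterating `n ↦ φ(n) + 1`

A prime is reached after at most `4 √n` steps.
-/

namespace Pool.Agent.Results.MP_a57927_nt.SquareRootBound

/-- `f(n) = φ(n) + 1` -/
def f (n : ℕ) : ℕ := Nat.totient n + 1

lemma totient_mul_le (p : ℕ) (hp : p.Prime) : ∀ m : ℕ, p ∣ m → Nat.totient m * p ≤ m * (p - 1) := by
  intro m
  induction m using Nat.strong_induction_on with
  | _ m ih =>
    rintro ⟨k, rfl⟩
    rcases Nat.eq_zero_or_pos k with rfl | hk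
    · simp
    by_cases hpk : p ∣ k
    · have hlt : k < p * k := by
        have := hp.two_le
        nlinarith
      have h1 := ih k hlt hpk
      rw [Nat.totient_mul_of_prime_of_dvd hp hpk]
      calc p * Nat.totient k * p = p * (Nat.totient k * p) := by ring
        _ ≤ p * (k * (p - 1)) := Nat.mul_le_mul_left _ h1
        _ = p * k * (p - 1) := by ring
    · rw [Nat.totient_mul_of_prime_of_not_dvd hp hpk]
      have h2 := Nat.totient_le k
      calc (p - 1) * Nat.totient k * p ≤ (p - 1) * k * p := by gcongr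
        _ = p * k * (p - 1) := by ring

/-- a composite number loses at least its square root -/
lemma f_add_sqrt_le {m : ℕ} (hm : 2 ≤ m) (hnp : ¬ m.Prime) : f m + Nat.sqrt m ≤ m + 1 := by
  set p := m.minFac with hpdef
  have hp : p.Prime := Nat.minFac_prime (by omega)
  obtain ⟨k, hk⟩ : p ∣ m := Nat.minFac_dvd m
  have hpsq : p ^ 2 ≤ m := Nat.minFac_sq_le_self (by omega) hnp
  have h1 := totient_mul_le p hp m ⟨k, hk⟩
  have hp0 : 0 < p := hp.pos
  have h2 : Nat.totient m ≤ k * (p - 1) := by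
    have h3 : Nat.totient m * p ≤ (k * (p - 1)) * p := by
      calc Nat.totient m * p ≤ m * (p - 1) := h1
        _ = (k * (p - 1)) * p := by
          conv_lhs => rw [hk]
          ring
    exact Nat.le_of_mul_le_mul_right h3 hp0
  have h4 : Nat.sqrt m ≤ k := by
    have hs : Nat.sqrt m * Nat.sqrt m ≤ m := Nat.sqrt_le m
    have hps : p ≤ Nat.sqrt m := by
      rw [Nat.le_sqrt']
      exact hpsq
    by_contra hc
    push Not at hc
    have h5 : p * k < Nat.sqrt m * Nat.sqrt m := by
      calc p * k ≤ Nat.sqrt m * k := Nat.mul_le_mul_right _ hps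
        _ < Nat.sqrt m * Nat.sqrt m := Nat.mul_lt_mul_of_pos_left hc (by omega)
    omega
  have h6 : k * (p - 1) + k = m := by
    obtain ⟨q, hq⟩ : ∃ q, p = q + 1 := ⟨p - 1, by omega⟩
    rw [hk, hq, Nat.add_sub_cancel]
    ring
  unfold f
  omega

lemma real_step {m : ℕ} (hm : 16 ≤ m) {w : ℕ} (hw : w + Nat.sqrt m ≤ m + 1) :
    4 * Real.sqrt w + 1 ≤ 4 * Real.sqrt m := by
  set r := Real.sqrt m with hr
  have hr2 : r ^ 2 = m := Real.sq_sqrt (Nat.cast_nonneg m)
  have hr4 : 4 ≤ r := by
    rw [hr]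
    apply Real.le_sqrt_of_sq_le
    have : (16 : ℝ) ≤ m := by exact_mod_cast hm
    linarith
  have hs : r < Nat.sqrt m + 1 := by
    have h1 : m < (Nat.sqrt m + 1) ^ 2 := by
      have := Nat.lt_succ_sqrt m
      rw [Nat.succ_eq_add_one] at this
      nlinarith
    have h2 : (m : ℝ) < ((Nat.sqrt m : ℝ) + 1) ^ 2 := by exact_mod_cast h1
    rw [hr]
    rw [Real.sqrt_lt' (by positivity)]
    exact h2
  have hw' : (w : ℝ) + Nat.sqrt m ≤ m + 1 := by exact_mod_cast hw
  have h3 : Real.sqrt w ≤ r - 1 / 4 := by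
    rw [Real.sqrt_le_left (by linarith)]
    nlinarith
  linarith

theorem bound (n : ℕ) (hn : 1 ≤ n) : ∃ i : ℕ, (i : ℝ) ≤ 4 * Real.sqrt n ∧ (f^[i] n).Prime := by
  induction n using Nat.strong_induction_on with
  | _ n ih =>
    have h1r : (1 : ℝ) ≤ Real.sqrt n := by
      rw [Real.one_le_sqrt]
      exact_mod_cast hn
    by_cases hp : n.Prime
    · exact ⟨0, by simp, hp⟩
    rcases Nat.lt_or_ge n 16 with hlt | hge
    · have hsmall : (f^[1] n).Prime ∨ (f^[2] n).Prime := by
        unfold f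
        interval_cases n <;> revert hp <;> decide
      rcases hsmall with h | h
      · exact ⟨1, by push_cast; linarith, h⟩
      · exact ⟨2, by push_cast; linarith, h⟩
    · have hstep := f_add_sqrt_le (by omega) hp
      have hs : 4 ≤ Nat.sqrt n := by
        rw [Nat.le_sqrt]
        omega
      have hlt : f n < n := by omega
      obtain ⟨i, hi, hpi⟩ := ih (f n) hlt (by unfold f; omega)
      refine ⟨i + 1, ?_, ?_⟩
      · have := real_step hge hstep
        push_cast
        linarith
      · rw [Function.iterate_succ_apply]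
        exact hpi

/-- **Main theorem.** The least `i` with `f^i(n)` prime is at most `4 √n`. -/
theorem result : ∀ n : ℕ, 1 ≤ n →
    ∃ i : ℕ, (f^[i] n).Prime ∧ (∀ j < i, ¬ (f^[j] n).Prime) ∧ (i : ℝ) ≤ 4 * Real.sqrt n := by
  classical
  intro n hn
  obtain ⟨i, hi, hp⟩ := bound n hn
  have hex : ∃ i, (f^[i] n).Prime := ⟨i, hp⟩
  refine ⟨Nat.find hex, Nat.find_spec hex, fun j hj => Nat.find_min hex hj, ?_⟩
  have h1 : (Nat.find hex : ℝ) ≤ i := by exact_mod_cast Nat.find_min' hex hp
  linarith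

end Pool.Agent.Results.MP_a57927_nt.SquareRootBound
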